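import Pool.Agent.Y107.SDDefs

/-!
# Factors of all degrees compatible with Lefschetz operators: definitions
-/

open CategoryTheory AlgebraicGeometry

universe u v w

namespace Pool.Agent.N174.OV

open Pool.Agent.H914 Pool.Agent.H914.VarClass Pool.Agent.H914.VarClass.Obj Pool.Agent.W492.BB
  Pool.Agent.W550.Corr Pool.Agent.TH133

variable {k : Type u} [Field k] {𝒱 : VarClass k}

/-- The mixed classes `v` on `X × Y` and `w` on `Y × X` (correspondences of all degrees) satisfy
`v ∘ w = 1` on `Y`, and intertwine the correspondences `LX` and `LY` of degree one. For example `w`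
is the class `ch(E) √td(Y × X)` for the kernel `E` of a fully faithful functor `D(Y) → D(X)` and `v`
the class of its adjoint, and `LX`, `LY` are the products with the classes of line bundles `L` on `X`
and `M` on `Y` such that the functor transforms `- ⊗ M` into `- ⊗ L`, for instance the canonical
bundles if the functor is an equivalence, or the pull-backs of a line bundle on `B` if `X` and `Y`
are varieties over `B` and the functor is linear over `B`. -/
structure IsMixedFactor (C : TheoryData.{u, v, 0} 𝒱 ℚ) {X Y : 𝒱.Obj} (LX : C.A (X.prod X))
    (LY : C.A (Y.prod Y)) (v : C.A (X.prod Y)) (w : C.A (Y.prod X)) : Prop where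
  degX : C.Deg ((X.dim : ℤ) + 1) LX
  degY : C.Deg ((Y.dim : ℤ) + 1) LY
  comm : C.comp LX v = C.comp v LY
  comm' : C.comp LY w = C.comp w LX
  right : C.comp w v = dg C Y

end Pool.Agent.N174.OV
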