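import Pool.Agent.N174.OV.Lin
import Pool.Agent.N174.OV.FDefs
import Pool.Agent.Y107.SDMul

/-!
# Chow-Kunneth decompositions of factors of all degrees
-/

open CategoryTheory AlgebraicGeometry

universe u v w

namespace Pool.Agent.N174.OV

open Pool.Agent.H914 Pool.Agent.H914.VarClass Pool.Agent.H914.VarClass.Obj Pool.Agent.W492.BB
  Pool.Agent.W550.Corr Pool.Agent.TH133 Pool.Agent.Y107

set_option linter.unusedSectionVars false

section lin

variable {K : Type*} [Field K] {V V' : Type*} [AddCommGroup V] [Module K V] [AddCommGroup V']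
  [Module K V'] {M : ℤ → Submodule K V} {N : Module.End K V} {n n' : ℕ} {M' : ℤ → Submodule K V'}
  {N' : Module.End K V'}

/-- **A homogeneous map commuting with hard Lefschetz operators does not lower the degrees, counted
from the centres.** -/
theorem eq_zero_of_lt (h : HL M N n) (h' : HL M' N' n') {φ : V →ₗ[K] V'} {s : ℤ}
    (hs : s < (n' : ℤ) - n) (hφ : ∀ i, ∀ x ∈ M i, φ x ∈ M' (i + s))
    (hc : ∀ x, φ (N x) = N' (φ x)) (i : ℤ) (x : V) (hx : x ∈ M i) : φ x = 0 := by
  -- primitive classes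
  have prim : ∀ (m a : ℕ), m + a = n → ∀ p ∈ M (m : ℤ), (N ^ (a + 1)) p = 0 → φ p = 0 := by
    intro m a hma p hp hp0
    have h1 := hφ _ _ hp
    by_cases hneg : (m : ℤ) + s < 0
    · rw [h'.low _ hneg] at h1
      exact (Submodule.mem_bot _).1 h1
    · obtain ⟨b, hb⟩ : ∃ b : ℕ, (b : ℤ) = n' - (m + s) := ⟨(n' - (m + s)).toNat, by omega⟩
      obtain ⟨c, hc'⟩ : ∃ c : ℕ, b = c + (a + 1) := ⟨b - (a + 1), by omega⟩
      refine h'.inj b (by omega) _ ?_ ?_
      · rwa [show (n' : ℤ) - b = m + s by omega]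
      · rw [← pow_comm_apply hc, hc', pow_add, Module.End.mul_apply, hp0, map_zero, map_zero]
  have low : ∀ m : ℕ, m ≤ n → ∀ x ∈ M (m : ℤ), φ x = 0 := by
    intro m
    induction m using Nat.strong_induction_on with
    | _ m ih =>
      intro hm x hx
      obtain ⟨a, ha⟩ : ∃ a : ℕ, m + a = n := ⟨n - m, by omega⟩
      have h1 := h.pow_deg (a + 1) hx
      rw [show (m : ℤ) + 2 * ((a + 1 : ℕ) : ℤ) = (n : ℤ) + ((a + 2 : ℕ) : ℤ) by
        push_cast; omega] at h1
      by_cases h2 : a + 2 ≤ n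
      · obtain ⟨x', hx', hx2⟩ := h.surj _ h2 _ h1
        rw [show (n : ℤ) - ((a + 2 : ℕ) : ℤ) = ((m - 2 : ℕ) : ℤ) by omega] at hx'
        have h3 := ih (m - 2) (by omega) (by omega) x' hx'
        have h4 : x - N x' ∈ M (m : ℤ) := by
          refine Submodule.sub_mem _ hx ?_
          have := h.deg _ _ hx'
          rwa [show ((m - 2 : ℕ) : ℤ) + 2 = m by omega] at this
        have h5 : φ (x - N x') = 0 := by
          refine prim m a ha _ h4 ?_
          rw [map_sub, ← hx2, pow_succ N (a + 1), Module.End.mul_apply, sub_self]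
        rw [map_sub, hc, h3, map_zero, sub_zero] at h5
        exact h5
      · rw [h.high _ (by push_cast; omega)] at h1
        exact prim m a ha x hx ((Submodule.mem_bot _).1 h1)
  rcases lt_or_ge i 0 with hi | hi
  · rw [h.low i hi] at hx
    rw [(Submodule.mem_bot _).1 hx, map_zero]
  rcases le_or_gt i n with hi2 | hi2
  · obtain ⟨m, rfl⟩ := Int.eq_ofNat_of_zero_le hi
    exact low m (by omega) x hx
  rcases le_or_gt i (2 * n) with hi3 | hi3
  · obtain ⟨a, ha⟩ : ∃ a : ℕ, (a : ℤ) = i - n := ⟨(i - n).toNat, by omega⟩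
    obtain ⟨x', hx', rfl⟩ := h.surj a (by omega) x (by rwa [show (n : ℤ) + a = i by omega])
    rw [show (n : ℤ) - a = ((n - a : ℕ) : ℤ) by omega] at hx'
    rw [pow_comm_apply hc, low (n - a) (by omega) x' hx', map_zero]
  · rw [h.high i hi3] at hx
    rw [(Submodule.mem_bot _).1 hx, map_zero]

end lin

variable {k : Type u} [Field k] {𝒱 : VarClass k}

section chow

variable {C : TheoryData.{u, v, 0} 𝒱 ℚ} [hC : IsChowProj C] {X Y Z W : 𝒱.Obj}

include hC

/-- The equation is inherited by factors. -/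
theorem inSquare_of_factor {LX : C.A (X.prod X)} {LY : C.A (Y.prod Y)} {v : C.A (X.prod Y)}
    {w : C.A (Y.prod X)} (h : IsMixedFactor C LX LY v w)
    (hX : ∃ z : C.A (X.prod X), brk C LX (brk C LX z) = LX) : InSquare C LY := by
  obtain ⟨z, hz⟩ := hX
  have hT : ∀ z : C.A (X.prod X), C.comp (C.comp w (brk C LX z)) v =
      brk C LY (C.comp (C.comp w z) v) := by
    intro z
    have e1 : C.comp (C.comp w (C.comp z LX)) v = C.comp (C.comp (C.comp w z) v) LY := by
      calc C.comp (C.comp w (C.comp z LX)) v = C.comp (C.comp w z) (C.comp LX v) := by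
            simp only [comp_assoc]
        _ = C.comp (C.comp (C.comp w z) v) LY := by rw [h.comm]; simp only [comp_assoc]
    have e2 : C.comp (C.comp w (C.comp LX z)) v = C.comp LY (C.comp (C.comp w z) v) := by
      calc C.comp (C.comp w (C.comp LX z)) v = C.comp (C.comp w LX) (C.comp z v) := by
            simp only [comp_assoc]
        _ = C.comp LY (C.comp (C.comp w z) v) := by rw [← h.comm']; simp only [comp_assoc]
    rw [brk, brk, comp_sub, sub_comp, e1, e2]
  have hTL : C.comp (C.comp w LX) v = LY := by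
    rw [← h.comm', comp_assoc, h.right, comp_dg]
  have h1 : brk C LY (brk C LY (C.comp (C.comp w z) v)) = LY := by
    rw [← hT, ← hT, hz, hTL]
  set L : Cor C Y := LY with hLdef
  have hL : L ∈ crg C Y 1 := h.degY
  set t : Cor C Y := C.comp (C.comp w z) v with ht
  rw [inSquare_iff]
  have hz' : L * (L * t - t * L) - (L * t - t * L) * L = L := h1
  let φ : Cor C Y →ₗ[ℚ] Cor C Y := adQ L * adQ L
  have hφ : ∀ x, φ x = L * (L * x - x * L) - (L * x - x * L) * L := fun x => rfl
  have hφ2 : ∀ i, ∀ x ∈ crg C Y i, φ x ∈ crg C Y (i + 2) := by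
    intro i x hx
    have h1 : L * x - x * L ∈ crg C Y (i + 1) := by
      refine Submodule.sub_mem _ ?_ (crg_mul hx hL)
      have := crg_mul hL hx
      rwa [add_comm] at this
    rw [hφ, show i + 2 = i + 1 + 1 by ring]
    refine Submodule.sub_mem _ ?_ (crg_mul h1 hL)
    have := crg_mul hL h1
    rwa [add_comm 1] at this
  refine ⟨cmpc C Y (-1) t, cmpc_mem _ _, ?_⟩
  have h3 := cmpc_map φ 2 hφ2 (-1) t
  rw [hφ t, hz', show (-1 : ℤ) + 2 = 1 by norm_num, cmpc_of_mem hL, hφ] at h3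
  exact h3.symm

/-- The family indexed by the integers. -/
noncomputable def zf (π : ℕ → C.A (X.prod X)) (i : ℤ) : C.A (X.prod X) :=
  if 0 ≤ i then π i.toNat else 0

lemma zf_nat (π : ℕ → C.A (X.prod X)) (i : ℕ) : zf (C := C) π (i : ℤ) = π i := by
  rw [zf, if_pos (Int.natCast_nonneg i), Int.toNat_natCast]

lemma zf_neg (π : ℕ → C.A (X.prod X)) {i : ℤ} (hi : i < 0) : zf (C := C) π i = 0 := by
  rw [zf, if_neg (by omega)]

section dec

variable {K : Type w} [Field K] {H : WeilTheoryData.{u, v, w} C K} [hH : IsWeilProj H]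

include hH

lemma IsCK.comp_eq {π : ℕ → C.A (X.prod X)} (hπ : IsCK H X π) (i j : ℕ) :
    C.comp (π i) (π j) = if i = j then π i else 0 := by
  by_cases h : i = j
  · subst h
    rw [if_pos rfl, hπ.idem]
  · rw [if_neg h, hπ.orth i j h]

lemma zf_comp {π : ℕ → C.A (X.prod X)} (hπ : IsCK H X π) (i j : ℤ) :
    C.comp (zf π i) (zf π j) = if i = j then zf π i else 0 := by
  rcases lt_or_ge i 0 with hi | hi
  · rw [zf_neg π hi, zero_comp, ite_self]
  rcases lt_or_ge j 0 with hj | hj
  · rw [zf_neg π hj, comp_zero, if_neg (by omega)]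
  · obtain ⟨m, rfl⟩ := Int.eq_ofNat_of_zero_le hi
    obtain ⟨n, rfl⟩ := Int.eq_ofNat_of_zero_le hj
    rw [zf_nat, zf_nat, IsCK.comp_eq hπ]
    by_cases h : m = n
    · rw [if_pos h, if_pos (by exact_mod_cast h)]
    · rw [if_neg h, if_neg (by exact_mod_cast h)]

lemma zf_out {π : ℕ → C.A (X.prod X)} (hπ : IsCK H X π) {i : ℤ} (hi : 2 * (X.dim : ℤ) < i) :
    zf (C := C) π i = 0 := by
  obtain ⟨m, rfl⟩ := Int.eq_ofNat_of_zero_le (show 0 ≤ i by omega)
  rw [zf_nat]
  exact hπ.out m (by omega)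

lemma comp_low {π : ℕ → C.A (X.prod X)} (hπ : IsCK H X π) {L : C.A (X.prod X)}
    (hL : MotivicLefschetz C L π) {n : ℕ} (hn : n < 2) : C.comp L (π n) = 0 := by
  have h1 : L = ∑ i ∈ Finset.range (2 * X.dim + 1), C.comp L (π (i + 2)) := by
    have h2 : C.comp (dg C X) L = L := dg_comp C L
    rw [← hπ.sum, sum_comp] at h2
    conv_lhs => rw [← h2]
    exact Finset.sum_congr rfl fun i _ => hL.homogeneous i
  rw [h1, sum_comp]
  refine Finset.sum_eq_zero fun i _ => ?_
  rw [comp_assoc, hπ.orth _ _ (by omega), comp_zero]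

lemma zf_hom {π : ℕ → C.A (X.prod X)} (hπ : IsCK H X π) {L : C.A (X.prod X)}
    (hL : MotivicLefschetz C L π) (i : ℤ) : C.comp (zf π i) L = C.comp L (zf π (i + 2)) := by
  rcases lt_or_ge i 0 with hi | hi
  · rw [zf_neg π hi, zero_comp]
    rcases lt_or_ge (i + 2) 0 with hi2 | hi2
    · rw [zf_neg π hi2, comp_zero]
    · obtain ⟨m, hm⟩ := Int.eq_ofNat_of_zero_le hi2
      rw [hm, zf_nat, comp_low hπ hL (by omega)]
  · obtain ⟨m, rfl⟩ := Int.eq_ofNat_of_zero_le hi
    rw [zf_nat, show (m : ℤ) + 2 = ((m + 2 : ℕ) : ℤ) by push_cast; ring, zf_nat]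
    exact hL.homogeneous m

lemma zf_hom_pow {π : ℕ → C.A (X.prod X)} (hπ : IsCK H X π) {L : C.A (X.prod X)}
    (hL : MotivicLefschetz C L π) (r : ℕ) (i : ℤ) :
    C.comp (zf π i) (corPow C L r) = C.comp (corPow C L r) (zf π (i + 2 * r)) := by
  induction r with
  | zero =>
    have : corPow C L 0 = dg C X := rfl
    rw [this, dg_comp, comp_dg]
    simp
  | succ r ih =>
    have e : corPow C L (r + 1) = C.comp (corPow C L r) L := rfl
    rw [e, ← comp_assoc, ih, comp_assoc, zf_hom hπ hL, ← comp_assoc]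
    congr 2
    push_cast
    ring

/-- The correspondences `Z → X` with image in `h^i(X)`. -/
noncomputable def Mg (Z : 𝒱.Obj) (π : ℕ → C.A (X.prod X)) (i : ℤ) :
    Submodule ℚ (C.A (Z.prod X)) :=
  LinearMap.eqLocus ((compL C (X := Z) (Y := X) (Z := X)).flip (zf π i)) LinearMap.id

omit hH in
lemma mem_Mg {π : ℕ → C.A (X.prod X)} {i : ℤ} {z : C.A (Z.prod X)} :
    z ∈ Mg Z π i ↔ C.comp z (zf π i) = z := Iff.rfl

omit hH in
lemma pow_flip (L : C.A (X.prod X)) (r : ℕ) (z : C.A (Z.prod X)) :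
    (((compL C (X := Z) (Y := X) (Z := X)).flip L) ^ r) z = C.comp z (corPow C L r) := by
  induction r with
  | zero => exact (comp_dg C z).symm
  | succ r ih =>
    rw [pow_succ', Module.End.mul_apply, ih]
    exact comp_assoc C z _ L

/-- Motivic hard Lefschetz in terms of linear algebra. -/
lemma hl_chow (Z : 𝒱.Obj) {π : ℕ → C.A (X.prod X)} (hπ : IsCK H X π) {L : C.A (X.prod X)}
    (hL : MotivicLefschetz C L π) :
    HL (Mg Z π) ((compL C (X := Z) (Y := X) (Z := X)).flip L) X.dim := by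
  refine ⟨fun i hi => ?_, fun i hi => ?_, fun i x hx => ?_, fun r hr x hx h0 => ?_,
    fun r hr y hy => ?_⟩
  · rw [eq_bot_iff]
    intro z hz
    rw [mem_Mg, zf_neg π hi, comp_zero] at hz
    exact (Submodule.mem_bot _).2 hz.symm
  · rw [eq_bot_iff]
    intro z hz
    rw [mem_Mg, zf_out hπ hi, comp_zero] at hz
    exact (Submodule.mem_bot _).2 hz.symm
  · rw [mem_Mg] at hx ⊢
    change C.comp (C.comp x L) (zf π (i + 2)) = C.comp x L
    rw [comp_assoc C x, ← zf_hom hπ hL, ← comp_assoc, hx]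
  · rw [pow_flip] at h0
    obtain ⟨n, hn⟩ : ∃ n, n + r = X.dim := ⟨X.dim - r, by omega⟩
    obtain ⟨g, _, hg1, _⟩ := hL.iso n (by omega)
    rw [show X.dim - n = r by omega] at hg1
    rw [mem_Mg, show (X.dim : ℤ) - r = (n : ℤ) by omega, zf_nat] at hx
    calc x = C.comp x (C.comp (C.comp (π n) (corPow C L r)) g) := by rw [hg1, hx]
      _ = C.comp (C.comp (C.comp x (π n)) (corPow C L r)) g := by simp only [comp_assoc]
      _ = 0 := by rw [hx, h0, zero_comp]
  · obtain ⟨n, hn⟩ : ∃ n, n + r = X.dim := ⟨X.dim - r, by omega⟩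
    obtain ⟨g, _, _, hg2⟩ := hL.iso n (by omega)
    have en : 2 * X.dim - n = n + 2 * r := by omega
    rw [show X.dim - n = r by omega, en] at hg2
    rw [mem_Mg, show (X.dim : ℤ) + r = ((n + 2 * r : ℕ) : ℤ) by push_cast; omega, zf_nat] at hy
    have h3 : C.comp (C.comp y g) (corPow C L r) = y := by
      calc C.comp (C.comp y g) (corPow C L r)
          = C.comp (C.comp (C.comp y (π (n + 2 * r))) g) (corPow C L r) := by rw [hy]
        _ = C.comp y (C.comp (C.comp (π (n + 2 * r)) g) (corPow C L r)) := by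
            simp only [comp_assoc]
        _ = y := by rw [hg2, hy]
    refine ⟨C.comp (C.comp y g) (π n), ?_, ?_⟩
    · rw [mem_Mg, show (X.dim : ℤ) - r = (n : ℤ) by omega, zf_nat, comp_assoc, hπ.idem]
    · rw [pow_flip, comp_assoc]
      have h4 := zf_hom_pow hπ hL r (n : ℤ)
      rw [show (n : ℤ) + 2 * (r : ℤ) = ((n + 2 * r : ℕ) : ℤ) by push_cast; ring, zf_nat,
        zf_nat] at h4
      rw [h4, ← comp_assoc, h3, hy]

/-- **Intertwiners are triangular.** -/
theorem triangular {π : ℕ → C.A (X.prod X)} {ρ : ℕ → C.A (Y.prod Y)} (hπ : IsCK H X π)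
    (hρ : IsCK H Y ρ) {LX : C.A (X.prod X)} {LY : C.A (Y.prod Y)}
    (hLX : MotivicLefschetz C LX π) (hLY : MotivicLefschetz C LY ρ) {v : C.A (X.prod Y)}
    (hv : C.comp LX v = C.comp v LY) {i j : ℕ} (hij : (j : ℤ) - Y.dim < i - X.dim) :
    C.comp (C.comp (π i) v) (ρ j) = 0 := by
  set s : ℤ := j - i with hs
  let f : ℤ → C.A (X.prod X) →ₗ[ℚ] C.A (X.prod Y) := fun m =>
    ((compL C (X := X) (Y := Y) (Z := Y)).flip (zf ρ (m + s))) ∘ₗ
      ((compL C (X := X) (Y := X) (Z := Y)).flip v) ∘ₗ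
      ((compL C (X := X) (Y := X) (Z := X)).flip (zf π m))
  have hf : ∀ m z, f m z = C.comp (C.comp (C.comp z (zf π m)) v) (zf ρ (m + s)) :=
    fun m z => rfl
  let φ : C.A (X.prod X) →ₗ[ℚ] C.A (X.prod Y) := ∑ m ∈ Finset.range (2 * X.dim + 1), f (m : ℤ)
  have hφ : ∀ z, φ z = ∑ m ∈ Finset.range (2 * X.dim + 1), f (m : ℤ) z := by
    intro z
    simp only [φ, LinearMap.sum_apply]
  have hne : ∀ (i : ℤ) (x : C.A (X.prod X)), x ∈ Mg X π i → ∀ m : ℤ, m ≠ i → f m x = 0 := by
    intro i x hx m hm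
    rw [mem_Mg] at hx
    rw [hf, ← hx, comp_assoc C x, zf_comp hπ, if_neg (Ne.symm hm), comp_zero, zero_comp, zero_comp]
  have h1 : ∀ i, ∀ x ∈ Mg X π i, φ x ∈ Mg X ρ (i + s) := by
    intro i x hx
    rw [hφ]
    refine Submodule.sum_mem _ fun m _ => ?_
    by_cases hm : (m : ℤ) = i
    · rw [hm, mem_Mg, hf, comp_assoc, zf_comp hρ, if_pos rfl]
    · rw [hne i x hx _ hm]
      exact Submodule.zero_mem _
  have h2 : ∀ x, φ ((compL C (X := X) (Y := X) (Z := X)).flip LX x) =
      (compL C (X := X) (Y := Y) (Z := Y)).flip LY (φ x) := by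
    intro x
    have h3 : ∀ m : ℤ, (compL C (X := X) (Y := Y) (Z := Y)).flip LY (f m x) =
        f (m + 2) (C.comp x LX) := by
      intro m
      change C.comp (f m x) LY = _
      rw [hf, hf]
      calc C.comp (C.comp (C.comp (C.comp x (zf π m)) v) (zf ρ (m + s))) LY
          = C.comp (C.comp (C.comp x (zf π m)) v) (C.comp (zf ρ (m + s)) LY) := by
            simp only [comp_assoc]
        _ = C.comp (C.comp x (zf π m)) (C.comp (C.comp v LY) (zf ρ (m + s + 2))) := by
            rw [zf_hom hρ hLY]; simp only [comp_assoc]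
        _ = C.comp (C.comp x (C.comp (zf π m) LX)) (C.comp v (zf ρ (m + s + 2))) := by
            rw [← hv]; simp only [comp_assoc]
        _ = C.comp (C.comp (C.comp (C.comp x LX) (zf π (m + 2))) v) (zf ρ (m + 2 + s)) := by
            rw [zf_hom hπ hLX, show m + s + 2 = m + 2 + s by ring]; simp only [comp_assoc]
    change φ (C.comp x LX) = _
    rw [hφ, hφ, map_sum]
    simp only [h3]
    set g : ℕ → C.A (X.prod Y) := fun m => f (m : ℤ) (C.comp x LX) with hg
    have g0 : g 0 = 0 := by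
      simp only [hg]
      rw [hf, zf_nat, comp_assoc C x, comp_low hπ hLX (by omega), comp_zero, zero_comp, zero_comp]
    have g1 : g 1 = 0 := by
      simp only [hg]
      rw [hf, zf_nat, comp_assoc C x, comp_low hπ hLX (by omega), comp_zero, zero_comp, zero_comp]
    have gout : ∀ m, 2 * X.dim < m → g m = 0 := by
      intro m hm
      simp only [hg]
      rw [hf, zf_nat, hπ.out m hm, comp_zero, zero_comp, zero_comp]
    have e1 : ∑ m ∈ Finset.range (2 * X.dim + 1 + 2), g m =
        ∑ m ∈ Finset.range (2 * X.dim + 1), g (m + 2) := by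
      rw [Finset.sum_range_succ', Finset.sum_range_succ', zero_add, g0, g1, add_zero, add_zero]
    have e2 : ∑ m ∈ Finset.range (2 * X.dim + 1 + 2), g m =
        ∑ m ∈ Finset.range (2 * X.dim + 1), g m := by
      rw [Finset.sum_range_succ, Finset.sum_range_succ, gout _ (by omega), gout _ (by omega),
        add_zero, add_zero]
    have e3 : ∀ m : ℕ, f ((m : ℤ) + 2) (C.comp x LX) = g (m + 2) := by
      intro m
      simp only [hg]
      push_cast
      rfl
    simp only [e3]
    rw [← e1, e2]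
  have h4 := eq_zero_of_lt (hl_chow X hπ hLX) (hl_chow X hρ hLY) (φ := φ) (s := s) (by omega) h1 h2
    (i : ℤ) (π i) (by rw [mem_Mg, zf_nat, hπ.idem])
  rcases Nat.lt_or_ge (2 * X.dim) i with hi | hi
  · rw [hπ.out i hi, zero_comp, zero_comp]
  rw [hφ, Finset.sum_eq_single i] at h4
  · rw [hf, zf_nat, hπ.idem, show (i : ℤ) + s = (j : ℤ) by omega, zf_nat] at h4
    exact h4
  · intro m _ hm
    refine hne (i : ℤ) (π i) (by rw [mem_Mg, zf_nat, hπ.idem]) _ (by exact_mod_cast hm)
  · intro h5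
    exact absurd (Finset.mem_range.2 (by omega)) h5

/-- The pieces of the decompositions of a factor are factors. -/
theorem pieces {π : ℕ → C.A (X.prod X)} {ρ : ℕ → C.A (Y.prod Y)} (hπ : IsCK H X π)
    (hρ : IsCK H Y ρ) {LX : C.A (X.prod X)} {LY : C.A (Y.prod Y)}
    (hLX : MotivicLefschetz C LX π) (hLY : MotivicLefschetz C LY ρ) {v : C.A (X.prod Y)}
    {w : C.A (Y.prod X)} (h : IsMixedFactor C LX LY v w) {i j : ℕ} (hij : i + Y.dim = j + X.dim) :
    C.comp (C.comp (C.comp (ρ j) w) (π i)) (C.comp (C.comp (π i) v) (ρ j)) = ρ j := by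
  have h1 : ρ j = ∑ m ∈ Finset.range (2 * X.dim + 1),
      C.comp (C.comp (C.comp (ρ j) w) (π m)) (C.comp (C.comp (π m) v) (ρ j)) := by
    have h2 : ∀ m, C.comp (C.comp (C.comp (ρ j) w) (π m)) (C.comp (C.comp (π m) v) (ρ j)) =
        C.comp (C.comp (C.comp (ρ j) w) (π m)) (C.comp v (ρ j)) := by
      intro m
      calc C.comp (C.comp (C.comp (ρ j) w) (π m)) (C.comp (C.comp (π m) v) (ρ j))
          = C.comp (C.comp (C.comp (ρ j) w) (C.comp (π m) (π m))) (C.comp v (ρ j)) := by
            simp only [comp_assoc]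
        _ = C.comp (C.comp (C.comp (ρ j) w) (π m)) (C.comp v (ρ j)) := by rw [hπ.idem]
    simp only [h2]
    rw [← sum_comp, ← comp_sum, hπ.sum, comp_dg]
    calc ρ j = C.comp (ρ j) (C.comp (dg C Y) (ρ j)) := by rw [dg_comp, hρ.idem]
      _ = C.comp (C.comp (ρ j) w) (C.comp v (ρ j)) := by
          rw [← h.right]; simp only [comp_assoc]
  rw [Finset.sum_eq_single i] at h1
  · exact h1.symm
  · intro m _ hm
    rcases lt_or_gt_of_ne hm with hm | hm
    · rw [triangular hρ hπ hLY hLX h.comm' (i := j) (j := m) (by omega), zero_comp]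
    · rw [triangular hπ hρ hLX hLY h.comm (i := m) (j := j) (by omega), comp_zero]
  · intro h3
    have h4 : 2 * X.dim < i := by
      by_contra hcon
      exact h3 (Finset.mem_range.2 (by omega))
    rw [hπ.out i h4, comp_zero, zero_comp]

end dec

end chow

end Pool.Agent.N174.OV
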