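import Pool.Agent.TH829.Kim.Defs

/-!
# Invertible correspondences commuting with correspondences of degree one: definitions
-/

open CategoryTheory AlgebraicGeometry

universe u v

namespace Pool.Agent.N174.OV

open Pool.Agent.H914 Pool.Agent.H914.VarClass Pool.Agent.H914.VarClass.Obj Pool.Agent.W492.BB
  Pool.Agent.W550.Corr Pool.Agent.TH133

variable {k : Type u} [Field k] {𝒱 : VarClass k}

/-- The class `z` is the component of codimension `i` of the (mixed) class `v`. -/
def IsComponent (C : TheoryData.{u, v, 0} 𝒱 ℚ) {W : 𝒱.Obj} (v : C.A W) (i : ℤ) (z : C.A W) :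
    Prop :=
  C.Deg i z ∧ v - z ∈ ⨆ j : {j : ℤ // j ≠ i}, C.gr W j

/-- The mixed classes `v` on `X × Y` and `w` on `Y × X` are inverse to each other as correspondences
(of all degrees) and intertwine the correspondences `LX` and `LY` of degree one. For example
`v = ch(E) √td(X × Y)` for the kernel `E` of an equivalence of the derived categories, `w` the class
of the kernel of its inverse, and `LX`, `LY` the products with the canonical classes: the
equivalence commutes with the Serre functors. -/
structure IsIntertwiner (C : TheoryData.{u, v, 0} 𝒱 ℚ) {X Y : 𝒱.Obj} (LX : C.A (X.prod X))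
    (LY : C.A (Y.prod Y)) (v : C.A (X.prod Y)) (w : C.A (Y.prod X)) : Prop where
  degX : C.Deg ((X.dim : ℤ) + 1) LX
  degY : C.Deg ((Y.dim : ℤ) + 1) LY
  comm : C.comp LX v = C.comp v LY
  left : C.comp v w = dg C X
  right : C.comp w v = dg C Y

/-- The correspondence `Z` of degree zero is an isomorphism of the Chow motives of `X` and `Y`. -/
def IsChowIso (C : TheoryData.{u, v, 0} 𝒱 ℚ) {X Y : 𝒱.Obj} (Z : C.A (X.prod Y)) : Prop :=
  C.Deg X.dim Z ∧ ∃ Z' : C.A (Y.prod X), C.Deg Y.dim Z' ∧ C.comp Z Z' = dg C X ∧
    C.comp Z' Z = dg C Y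

end Pool.Agent.N174.OV
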