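import Pool.Agent.N174.OV.Lin
import Pool.Agent.N174.KN.Ring
import Pool.Agent.Y107.SDMul

/-!
# Invertible correspondences of mixed degrees commuting with hard Lefschetz operators
-/

open CategoryTheory AlgebraicGeometry

universe u v w

namespace Pool.Agent.N174.OV

open Pool.Agent.H914 Pool.Agent.H914.VarClass Pool.Agent.H914.VarClass.Obj Pool.Agent.W492.BB
  Pool.Agent.W550.Corr Pool.Agent.TH133 Pool.Agent.TH829.Prime Pool.Agent.TH829.Kim
  Pool.Agent.N174.KN Pool.Agent.Y107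

set_option linter.unusedSectionVars false

variable {k : Type u} [Field k] {𝒱 : VarClass k}

section chow

variable {C : TheoryData.{u, v, 0} 𝒱 ℚ} [hC : IsChowProj C] {X Y Z W : 𝒱.Obj}

include hC

/-- The component of degree `r` of a correspondence. -/
noncomputable def vr (X Y : 𝒱.Obj) (r : ℤ) : C.A (X.prod Y) →ₗ[ℚ] C.A (X.prod Y) :=
  cmp (C.isInternal (X.prod Y)) ((X.dim : ℤ) + r)

lemma vr_mem (r : ℤ) (v : C.A (X.prod Y)) : vr X Y r v ∈ C.gr (X.prod Y) ((X.dim : ℤ) + r) :=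
  cmp_mem _ _ _

lemma vr_of_mem {r : ℤ} {v : C.A (X.prod Y)} (h : v ∈ C.gr (X.prod Y) ((X.dim : ℤ) + r)) :
    vr X Y r v = v := cmp_of_mem _ h

lemma vr_of_ne {r s : ℤ} {v : C.A (X.prod Y)} (h : v ∈ C.gr (X.prod Y) ((X.dim : ℤ) + r))
    (hrs : r ≠ s) : vr X Y s v = 0 := cmp_of_ne _ h (by omega)

lemma cor_ind {p : C.A (X.prod Y) → Prop}
    (h : ∀ r : ℤ, ∀ a ∈ C.gr (X.prod Y) ((X.dim : ℤ) + r), p a)
    (hadd : ∀ a b, p a → p b → p (a + b)) (a : C.A (X.prod Y)) : p a := by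
  refine hom_ind (X.prod Y) (fun i a ha => h (i - X.dim) a ?_) hadd a
  rwa [add_sub_cancel]

lemma exists_sum_vr (v : C.A (X.prod Y)) : ∃ T : Finset ℤ, ∀ S, T ⊆ S → v = ∑ r ∈ S, vr X Y r v := by
  refine cor_ind (p := fun v => ∃ T : Finset ℤ, ∀ S, T ⊆ S → v = ∑ r ∈ S, vr X Y r v) ?_ ?_ v
  · intro r a ha
    refine ⟨{r}, fun S hS => ?_⟩
    rw [Finset.sum_eq_single_of_mem r (hS (Finset.mem_singleton_self r)), vr_of_mem ha]
    intro s _ hs
    exact vr_of_ne ha hs.symm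
  · rintro a b ⟨T, hT⟩ ⟨T', hT'⟩
    refine ⟨T ∪ T', fun S hS => ?_⟩
    have h1 := hT S (Finset.subset_union_left.trans hS)
    have h2 := hT' S (Finset.subset_union_right.trans hS)
    simp only [map_add, Finset.sum_add_distrib]
    rw [← h1, ← h2]

/-- Homogeneous maps of degree one commute with the components. -/
lemma vr_map (φ : C.A (X.prod Y) →ₗ[ℚ] C.A (X.prod Y))
    (hφ : ∀ r, ∀ x ∈ C.gr (X.prod Y) ((X.dim : ℤ) + r), φ x ∈ C.gr (X.prod Y) ((X.dim : ℤ) + (r + 1)))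
    (r : ℤ) (v : C.A (X.prod Y)) : vr X Y (r + 1) (φ v) = φ (vr X Y r v) := by
  refine cor_ind (p := fun v => vr X Y (r + 1) (φ v) = φ (vr X Y r v)) ?_ ?_ v
  · intro s a ha
    by_cases h : s = r
    · subst h
      rw [vr_of_mem ha, vr_of_mem (hφ s a ha)]
    · rw [vr_of_ne ha h, vr_of_ne (hφ s a ha) (by omega), map_zero]
  · intro a b h1 h2
    simp only [map_add, h1, h2]

/-- The components of an intertwiner are intertwiners. -/
lemma vr_comm {LX : C.A (X.prod X)} {LY : C.A (Y.prod Y)}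
    (hLX : LX ∈ C.gr (X.prod X) ((X.dim : ℤ) + 1)) (hLY : LY ∈ C.gr (Y.prod Y) ((Y.dim : ℤ) + 1))
    {v : C.A (X.prod Y)} (h : C.comp LX v = C.comp v LY) (r : ℤ) :
    C.comp LX (vr X Y r v) = C.comp (vr X Y r v) LY := by
  have h1 := vr_map (C := C) (X := X) (Y := Y) (compL C (X := X) (Y := X) (Z := Y) LX)
    (fun s x hx => by
      have := comp_mem C (X := X) (Y := X) (Z := Y) hLX hx
      rwa [add_comm (1 : ℤ) s] at this) r v
  have h2 := vr_map (C := C) (X := X) (Y := Y)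
    ((compL C (X := X) (Y := Y) (Z := Y)).flip LY)
    (fun s x hx => comp_mem C (X := X) (Y := Y) (Z := Y) hx hLY) r v
  have h3 : compL C (X := X) (Y := X) (Z := Y) LX v =
      (compL C (X := X) (Y := Y) (Z := Y)).flip LY v := h
  rw [h3, h2] at h1
  exact h1.symm

end chow

section weil

variable {C : TheoryData.{u, v, 0} 𝒱 ℚ} [hC : IsChowProj C] {K : Type w} [Field K]
  {H : WeilTheoryData.{u, v, w} C K} [hH : IsWeilProj H] {X Y Z W : 𝒱.Obj}

include hC hH

lemma actH_pow (L : Cor C X) (r : ℕ) (a : H.A X) :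
    ((actH C X H L) ^ r) a = H.act (H.cl (corPow C (X := X) L r)) a := by
  rw [corPow_eq]
  exact (LinearMap.congr_fun (map_pow (actH C X H) L r) a).symm

/-- The hard Lefschetz property in terms of linear algebra. -/
lemma hl_lin {L : C.A (X.prod X)} (hL : L ∈ C.gr (X.prod X) ((X.dim : ℤ) + 1))
    (h : HardLefschetzCor H X L) : HL (H.gr X) (H.actL (X := X) (Y := X) (H.cl L)) X.dim := by
  have hp : ∀ (r : ℕ) (a : H.A X), ((H.actL (X := X) (Y := X) (H.cl L)) ^ r) a =
      H.act (H.cl (corPow C L r)) a := by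
    intro r a
    exact actH_pow (C := C) (X := X) (H := H) L r a
  refine ⟨fun i hi => H.gr_neg X i hi, fun i hi => gr_top H hi, fun i x hx => ?_, fun r hr x hx h0 => ?_,
    fun r hr y hy => ?_⟩
  · have := actH_mem H hL hx
    rwa [mul_one] at this
  · rw [hp] at h0
    exact (h r hr).1 x hx h0
  · obtain ⟨a, ha, h1⟩ := (h r hr).2 y hy
    exact ⟨a, ha, by rw [hp, h1]⟩

/-- The components of negative degree of an intertwiner of hard Lefschetz operators are
homologically trivial. -/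
lemma act_vr_neg (hdim : X.dim = Y.dim) {LX : C.A (X.prod X)} {LY : C.A (Y.prod Y)}
    (hLX : LX ∈ C.gr (X.prod X) ((X.dim : ℤ) + 1)) (hLY : LY ∈ C.gr (Y.prod Y) ((Y.dim : ℤ) + 1))
    (hX : HardLefschetzCor H X LX) (hY : HardLefschetzCor H Y LY)
    {v : C.A (X.prod Y)} (h : C.comp LX v = C.comp v LY) {r : ℤ} (hr : r < 0) :
    H.actL (X := X) (Y := Y) (H.cl (vr X Y r v)) = 0 := by
  apply ext_gr H
  intro i a ha
  have h1 := hl_lin hLX hX
  have h2 := hl_lin hLY hY
  rw [← hdim] at h2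
  refine eq_zero_of_neg h1 h2 (φ := H.actL (X := X) (Y := Y) (H.cl (vr X Y r v))) (s := 2 * r)
    (by omega) (fun j x hx => actH_mem H (vr_mem r v) hx) (fun x => ?_) i a ha
  have h3 := vr_comm hLX hLY h r
  have h4 := congrArg (fun z => H.act (H.cl z) x) h3
  simp only [actH_comp] at h4
  exact h4

lemma act_sum_vr {T : Finset ℤ} {v : C.A (X.prod Y)} (hT : v = ∑ r ∈ T, vr X Y r v) (x : H.A X) :
    H.act (H.cl v) x = ∑ r ∈ T, H.actL (X := X) (Y := Y) (H.cl (vr X Y r v)) x := by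
  conv_lhs => rw [hT]
  rw [map_sum, act_sum]
  rfl

/-- The components of degree zero of inverse intertwiners are inverse modulo homological
equivalence. -/
theorem cl_vr_zero (hdim : X.dim = Y.dim) {LX : C.A (X.prod X)} {LY : C.A (Y.prod Y)}
    (hLX : LX ∈ C.gr (X.prod X) ((X.dim : ℤ) + 1)) (hLY : LY ∈ C.gr (Y.prod Y) ((Y.dim : ℤ) + 1))
    (hX : HardLefschetzCor H X LX) (hY : HardLefschetzCor H Y LY)
    {v : C.A (X.prod Y)} {w : C.A (Y.prod X)} (h : C.comp LX v = C.comp v LY)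
    (h' : C.comp LY w = C.comp w LX) (hvw : C.comp v w = dg C X) :
    H.cl (C.comp (vr X Y 0 v) (vr Y X 0 w)) = H.cl (dg C X) := by
  obtain ⟨T, hT⟩ := exists_sum_vr v
  obtain ⟨S, hS⟩ := exists_sum_vr w
  have hT1 := hT (insert 0 T) (Finset.subset_insert _ _)
  have hS1 := hS (insert 0 S) (Finset.subset_insert _ _)
  have key : ∀ i, ∀ x ∈ H.gr X i, H.act (H.cl (vr Y X 0 w)) (H.act (H.cl (vr X Y 0 v)) x) = x := by
    intro i x hx
    refine part_zero (H.isInternal X) (insert 0 T) (insert 0 S) (Finset.mem_insert_self _ _)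
      (Finset.mem_insert_self _ _) (M' := H.gr Y)
      (fun r => H.actL (X := X) (Y := Y) (H.cl (vr X Y r v)))
      (fun r => H.actL (X := Y) (Y := X) (H.cl (vr Y X r w)))
      (fun r i x hx => actH_mem H (vr_mem r v) hx) (fun r i x hx => actH_mem H (vr_mem r w) hx)
      (fun r hr => act_vr_neg hdim hLX hLY hX hY h hr)
      (fun r hr => act_vr_neg hdim.symm hLY hLX hY hX h' hr) (fun x => ?_) i x hx
    rw [← act_sum_vr hT1, ← act_sum_vr hS1, ← actH_comp, hvw, actH_dg]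
  rw [← sub_eq_zero, ← map_sub]
  apply hom_zero_of_act H
  have h1 : H.actL (X := X) (Y := X) (H.cl (C.comp (vr X Y 0 v) (vr Y X 0 w) - dg C X)) = 0 := by
    apply ext_gr H
    intro i x hx
    rw [TheoryData.actL_apply, map_sub, TheoryData.act_sub, actH_comp, key i x hx, actH_dg, sub_self]
    rfl
  exact fun a => LinearMap.congr_fun h1 a

end weil

end Pool.Agent.N174.OV
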