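import Mathlib.Algebra.DirectSum.Decomposition
import Mathlib.Algebra.DirectSum.Module
import Mathlib.LinearAlgebra.Basis.VectorSpace
import Mathlib.Tactic

/-!
# Linear maps commuting with hard Lefschetz operators do not lower degrees
-/

namespace Pool.Agent.N174.OV

variable {K : Type*} [Field K] {V V' : Type*} [AddCommGroup V] [Module K V] [AddCommGroup V']
  [Module K V']

/-- The operator `N` of degree two satisfies hard Lefschetz, with centre `n`. -/
structure HL (M : ℤ → Submodule K V) (N : Module.End K V) (n : ℕ) : Prop where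
  low : ∀ i < 0, M i = ⊥
  high : ∀ i, 2 * (n : ℤ) < i → M i = ⊥
  deg : ∀ i, ∀ x ∈ M i, N x ∈ M (i + 2)
  inj : ∀ r : ℕ, r ≤ n → ∀ x ∈ M ((n : ℤ) - r), (N ^ r) x = 0 → x = 0
  surj : ∀ r : ℕ, r ≤ n → ∀ y ∈ M ((n : ℤ) + r), ∃ x ∈ M ((n : ℤ) - r), (N ^ r) x = y

variable {M : ℤ → Submodule K V} {N : Module.End K V} {n : ℕ} {M' : ℤ → Submodule K V'}
  {N' : Module.End K V'}

lemma HL.pow_deg (h : HL M N n) (r : ℕ) {i : ℤ} {x : V} (hx : x ∈ M i) :
    (N ^ r) x ∈ M (i + 2 * r) := by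
  induction r with
  | zero => simpa using hx
  | succ r ih =>
    rw [pow_succ', Module.End.mul_apply]
    have := h.deg _ _ ih
    rwa [show i + 2 * (r : ℤ) + 2 = i + 2 * ((r + 1 : ℕ) : ℤ) by push_cast; ring] at this

lemma pow_comm_apply {φ : V →ₗ[K] V'} (hc : ∀ x, φ (N x) = N' (φ x)) (r : ℕ) (x : V) :
    φ ((N ^ r) x) = (N' ^ r) (φ x) := by
  induction r with
  | zero => simp
  | succ r ih => rw [pow_succ', pow_succ', Module.End.mul_apply, Module.End.mul_apply, hc, ih]

/-- **A homogeneous map of negative degree commuting with hard Lefschetz operators is zero.** -/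
theorem eq_zero_of_neg (h : HL M N n) (h' : HL M' N' n) {φ : V →ₗ[K] V'} {s : ℤ} (hs : s < 0)
    (hφ : ∀ i, ∀ x ∈ M i, φ x ∈ M' (i + s)) (hc : ∀ x, φ (N x) = N' (φ x)) (i : ℤ) (x : V)
    (hx : x ∈ M i) : φ x = 0 := by
  -- primitive classes
  have prim : ∀ (m a : ℕ), m + a = n → ∀ p ∈ M (m : ℤ), (N ^ (a + 1)) p = 0 → φ p = 0 := by
    intro m a hma p hp hp0
    have h1 := hφ _ _ hp
    by_cases hneg : (m : ℤ) + s < 0
    · rw [h'.low _ hneg] at h1
      exact (Submodule.mem_bot _).1 h1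
    · obtain ⟨b, hb⟩ : ∃ b : ℕ, (b : ℤ) = a - s := ⟨(a - s).toNat, by omega⟩
      obtain ⟨c, hc'⟩ : ∃ c : ℕ, b = c + (a + 1) := ⟨b - (a + 1), by omega⟩
      refine h'.inj b (by omega) _ ?_ ?_
      · rwa [show (n : ℤ) - b = m + s by omega]
      · rw [← pow_comm_apply hc, hc', pow_add, Module.End.mul_apply, hp0, map_zero, map_zero]
  have low : ∀ m : ℕ, m ≤ n → ∀ x ∈ M (m : ℤ), φ x = 0 := by
    intro m
    induction m using Nat.strong_induction_on with
    | _ m ih =>
      intro hm x hx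
      obtain ⟨a, ha⟩ : ∃ a : ℕ, m + a = n := ⟨n - m, by omega⟩
      have h1 := h.pow_deg (a + 1) hx
      rw [show (m : ℤ) + 2 * ((a + 1 : ℕ) : ℤ) = (n : ℤ) + ((a + 2 : ℕ) : ℤ) by
        push_cast; omega] at h1
      by_cases h2 : a + 2 ≤ n
      · obtain ⟨x', hx', hx2⟩ := h.surj _ h2 _ h1
        rw [show (n : ℤ) - ((a + 2 : ℕ) : ℤ) = ((m - 2 : ℕ) : ℤ) by omega] at hx'
        have h3 := ih (m - 2) (by omega) (by omega) x' hx'
        have h4 : x - N x' ∈ M (m : ℤ) := by
          refine Submodule.sub_mem _ hx ?_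
          have := h.deg _ _ hx'
          rwa [show ((m - 2 : ℕ) : ℤ) + 2 = m by omega] at this
        have h5 : φ (x - N x') = 0 := by
          refine prim m a ha _ h4 ?_
          rw [map_sub, ← hx2, pow_succ N (a + 1), Module.End.mul_apply, sub_self]
        rw [map_sub, hc, h3, map_zero, sub_zero] at h5
        exact h5
      · rw [h.high _ (by push_cast; omega)] at h1
        exact prim m a ha x hx ((Submodule.mem_bot _).1 h1)
  rcases lt_or_ge i 0 with hi | hi
  · rw [h.low i hi] at hx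
    rw [(Submodule.mem_bot _).1 hx, map_zero]
  rcases le_or_gt i n with hi2 | hi2
  · obtain ⟨m, rfl⟩ := Int.eq_ofNat_of_zero_le hi
    exact low m (by omega) x hx
  rcases le_or_gt i (2 * n) with hi3 | hi3
  · obtain ⟨a, ha⟩ : ∃ a : ℕ, (a : ℤ) = i - n := ⟨(i - n).toNat, by omega⟩
    obtain ⟨x', hx', rfl⟩ := h.surj a (by omega) x (by rwa [show (n : ℤ) + a = i by omega])
    rw [show (n : ℤ) - a = ((n - a : ℕ) : ℤ) by omega] at hx'
    rw [pow_comm_apply hc, low (n - a) (by omega) x' hx', map_zero]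
  · rw [h.high i hi3] at hx
    rw [(Submodule.mem_bot _).1 hx, map_zero]

/-! ### Components -/

/-- The homogeneous component of degree `i`. -/
noncomputable def cpK (hM : DirectSum.IsInternal M) (i : ℤ) : V →ₗ[K] V :=
  letI := hM.chooseDecomposition
  (M i).subtype ∘ₗ DirectSum.component K ℤ (fun i => M i) i ∘ₗ
    (DirectSum.decomposeLinearEquiv M).toLinearMap

lemma cpK_of_mem (hM : DirectSum.IsInternal M) {i : ℤ} {x : V} (hx : x ∈ M i) :
    cpK hM i x = x := by
  letI := hM.chooseDecomposition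
  unfold cpK
  simp only [LinearMap.comp_apply, Submodule.subtype_apply]
  change ((DirectSum.decompose M x) i : V) = x
  exact DirectSum.decompose_of_mem_same M hx

lemma cpK_of_ne (hM : DirectSum.IsInternal M) {i j : ℤ} {x : V} (hx : x ∈ M i) (h : i ≠ j) :
    cpK hM j x = 0 := by
  letI := hM.chooseDecomposition
  unfold cpK
  simp only [LinearMap.comp_apply, Submodule.subtype_apply]
  change ((DirectSum.decompose M x) j : V) = 0
  exact DirectSum.decompose_of_mem_ne M hx h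

/-- If sums of homogeneous maps of nonnegative degrees are inverse to each other, then so are
their parts of degree zero. -/
theorem part_zero (hM : DirectSum.IsInternal M) (T S : Finset ℤ) (hT : 0 ∈ T) (hS : 0 ∈ S)
    (A : ℤ → V →ₗ[K] V') (B : ℤ → V' →ₗ[K] V) (hA : ∀ r i, ∀ x ∈ M i, A r x ∈ M' (i + 2 * r))
    (hB : ∀ r i, ∀ x ∈ M' i, B r x ∈ M (i + 2 * r)) (hA0 : ∀ r < 0, A r = 0)
    (hB0 : ∀ r < 0, B r = 0)
    (hAB : ∀ x, ∑ s ∈ S, B s (∑ r ∈ T, A r x) = x) (i : ℤ) (x : V) (hx : x ∈ M i) :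
    B 0 (A 0 x) = x := by
  have h1 := congrArg (cpK hM i) (hAB x)
  rw [cpK_of_mem hM hx, map_sum] at h1
  have h2 : ∀ s ∈ S, s ≠ 0 → cpK hM i (B s (∑ r ∈ T, A r x)) = 0 := by
    intro s _ hs
    rcases lt_or_gt_of_ne hs with hs | hs
    · rw [hB0 s hs, LinearMap.zero_apply, map_zero]
    · rw [map_sum, map_sum]
      apply Finset.sum_eq_zero
      intro r _
      rcases lt_or_ge r 0 with hr | hr
      · rw [hA0 r hr, LinearMap.zero_apply, map_zero, map_zero]
      · exact cpK_of_ne hM (hB s _ _ (hA r _ _ hx)) (by omega)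
  rw [Finset.sum_eq_single_of_mem 0 hS h2, map_sum, map_sum] at h1
  have h3 : ∀ r ∈ T, r ≠ 0 → cpK hM i (B 0 (A r x)) = 0 := by
    intro r _ hr
    rcases lt_or_gt_of_ne hr with hr | hr
    · rw [hA0 r hr, LinearMap.zero_apply, map_zero, map_zero]
    · exact cpK_of_ne hM (hB 0 _ _ (hA r _ _ hx)) (by omega)
  rw [Finset.sum_eq_single_of_mem 0 hT h3] at h1
  have h4 := hB 0 _ _ (hA 0 _ _ hx)
  rw [mul_zero, add_zero, add_zero] at h4
  rwa [cpK_of_mem hM h4] at h1

end Pool.Agent.N174.OV
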