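import Pool.Agent.N174.OV.Geo
import Pool.Agent.N174.OV.Defs

/-!
# Isomorphisms of Chow motives
-/

open CategoryTheory AlgebraicGeometry

universe u v w

namespace Pool.Agent.N174.OV

open Pool.Agent.H914 Pool.Agent.H914.VarClass Pool.Agent.H914.VarClass.Obj Pool.Agent.W492.BB
  Pool.Agent.W550.Corr Pool.Agent.TH133 Pool.Agent.TH829.Prime Pool.Agent.TH829.Kim
  Pool.Agent.N174.KN Pool.Agent.Y107

set_option linter.unusedSectionVars false

variable {k : Type u} [Field k] {𝒱 : VarClass k}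

section weil

variable {C : TheoryData.{u, v, 0} 𝒱 ℚ} [hC : IsChowProj C] {K : Type w} [Field K]
  (H : WeilTheoryData.{u, v, w} C K) [hH : IsWeilProj H] {X Y Z W : 𝒱.Obj}

include hC hH

lemma one_ne (X : 𝒱.Obj) : (1 : C.A X) ≠ 0 := by
  intro h
  apply hH.one_ne_zero X
  rw [← map_one H.cl, h, map_zero]

/-- Homologically trivial classes have degree zero. -/
lemma hasDegree_of_cl {x : C.A X} (h : H.cl x = 0) : HasDegree C x 0 := by
  obtain ⟨q, hq⟩ := exists_deg (C := C) x
  have h1 : H.cl (C.push (snd X X) (C.pull (fst X X) x)) = 0 := by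
    rw [H.cl_push, H.cl_pull, h, map_zero, map_zero]
  rw [(hq X).1, Algebra.smul_def, mul_one] at h1
  have h2 : q = 0 := by
    by_contra hne
    apply hH.one_ne_zero X
    rw [← map_one H.cl, ← map_one (algebraMap ℚ (C.A X)), ← inv_mul_cancel₀ hne, map_mul, map_mul,
      h1, mul_zero]
  rwa [h2] at hq

/-- Homologically trivial correspondences of all degrees are in the radical of the trace form. -/
lemma inRad_of_cl {z : Cor C X} (h : H.cl (cl z) = 0) : InRad (trC (one_ne H) X) z := by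
  intro γ
  have h1 := trC_spec (hne := one_ne H) (z * γ)
  refine hasDegree_uniq (one_ne H X) h1 (hasDegree_of_cl H ?_)
  rw [ev, H.cl_pull, cl_mul, cl_comp, h, comp_zero, map_zero]

/-- If `X` is Kimura-finite, homologically trivial self-correspondences of all degrees are
nilpotent. -/
theorem nil_of_kimura (hK : IsKimuraFinite C (ratFam C) X) {z : Cor C X} (h : H.cl (cl z) = 0) :
    IsNilpotent z := by
  obtain ⟨p, hp, ⟨n, hn, h2⟩, ⟨m, hm, h3⟩⟩ := (isNCKimuraFinite_iff (one_ne H) X).2 hK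
  obtain ⟨n, rfl⟩ := Nat.exists_eq_add_of_le' hn
  obtain ⟨m, rfl⟩ := Nat.exists_eq_add_of_le' hm
  set e : Cor C X := p with he
  have hee : e * e = e := hp
  have hE : DieC true e (n + 1) := fun W x y => by
    have h4 := h2 W x y
    rwa [altPower_eq] at h4
  have hO : DieC false (1 - e) (m + 1) := fun W x y => by
    have h4 := h3 W x y
    rwa [symPower_eq] at h4
  exact isNilpotent_of_inRad (trC_comm (hne := one_ne H)) hee (hE.killed (hne := one_ne H))
    (hO.killed (hne := one_ne H)) (inRad_of_cl H h)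

omit hH in
/-- Units of degree zero. -/
lemma exists_inv {a : Cor C X} (ha : a ∈ cor0 C X) (hnil : IsNilpotent (a - 1)) :
    ∃ a' ∈ cor0 C X, a' * a = 1 ∧ a * a' = 1 := by
  set β : cor0 C X := ⟨a, ha⟩ with hβ
  have h1 : IsNilpotent (β - 1) := by
    obtain ⟨n, hn⟩ := hnil
    refine ⟨n, Subtype.ext ?_⟩
    exact hn
  obtain ⟨U, hU⟩ := h1.isUnit_add_one
  rw [sub_add_cancel] at hU
  refine ⟨((↑U⁻¹ : cor0 C X) : Cor C X), (↑U⁻¹ : cor0 C X).2, ?_, ?_⟩
  · have h3 : (↑U⁻¹ : cor0 C X) * β = 1 := by rw [← hU, Units.inv_mul]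
    exact congrArg Subtype.val h3
  · have h3 : β * (↑U⁻¹ : cor0 C X) = 1 := by rw [← hU, Units.mul_inv]
    exact congrArg Subtype.val h3

omit hH in
lemma eq_zero_of_idem_nil {q : Cor C X} (hq : q * q = q) (hn : IsNilpotent q) : q = 0 := by
  obtain ⟨n, hn⟩ := hn
  have h : ∀ m : ℕ, q ^ (m + 1) = q := by
    intro m
    induction m with
    | zero => rw [zero_add, pow_one]
    | succ m ih => rw [pow_succ, ih, hq]
  rw [← h n, pow_succ, hn, zero_mul]

/-- Nilpotence for `X` makes the component of degree zero an isomorphism. -/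
theorem iso_of_nil {v : C.A (X.prod Y)} {w : C.A (Y.prod X)} {v₀ : C.A (X.prod Y)}
    {w₀ : C.A (Y.prod X)} (hv₀ : v₀ ∈ C.gr (X.prod Y) X.dim) (hw₀ : w₀ ∈ C.gr (Y.prod X) Y.dim)
    (hwv : C.comp w v = dg C Y)
    (h1 : H.cl (C.comp v₀ w₀) = H.cl (dg C X)) (h2 : H.cl (C.comp w₀ v₀) = H.cl (dg C Y))
    (hnil : ∀ z : Cor C X, H.cl (cl z) = 0 → IsNilpotent z) :
    ∃ a' ∈ C.gr (X.prod X) X.dim, C.comp (C.comp v₀ w₀) a' = dg C X ∧
      C.comp a' (C.comp v₀ w₀) = dg C X ∧ C.comp (C.comp w₀ a') v₀ = dg C Y := by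
  have ha : C.comp v₀ w₀ ∈ C.gr (X.prod X) X.dim := by
    have := comp_mem C (X := X) (Y := Y) (Z := X) (e := 0) (e' := 0) (by rwa [add_zero])
      (by rwa [add_zero]) (Γ := v₀) (Δ := w₀)
    rwa [add_zero, add_zero] at this
  have hcl0 : H.cl (C.comp v₀ w₀ - dg C X) = 0 := by rw [map_sub, h1, sub_self]
  have hnil0 := hnil (C.comp v₀ w₀ - dg C X) hcl0
  obtain ⟨a', ha', h3, h4⟩ := exists_inv (C := C) (X := X) (a := C.comp v₀ w₀) ha hnil0
  replace h3 : C.comp (C.comp v₀ w₀) a' = dg C X := h3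
  replace h4 : C.comp a' (C.comp v₀ w₀) = dg C X := h4
  refine ⟨a', ha', h3, h4, ?_⟩
  have hcla : H.cl a' = H.cl (dg C X) := by
    have h5 := congrArg H.cl h3
    rw [cl_comp, h1, ← cl_comp, dg_comp] at h5
    exact h5
  set p := C.comp (C.comp w₀ a') v₀ with hp
  have hclp : H.cl p = H.cl (dg C Y) := by
    rw [hp, cl_comp, cl_comp, hcla, ← cl_comp, comp_dg, ← cl_comp, h2]
  have hpp : C.comp p p = p := by
    have e1 : C.comp v₀ (C.comp w₀ a') = dg C X := by rw [← comp_assoc, h3]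
    calc C.comp p p = C.comp (C.comp w₀ a') (C.comp v₀ (C.comp (C.comp w₀ a') v₀)) := by
          rw [hp, comp_assoc]
      _ = C.comp (C.comp w₀ a') (C.comp (C.comp v₀ (C.comp w₀ a')) v₀) := by
          rw [comp_assoc C v₀]
      _ = p := by rw [e1, dg_comp]
  set q := dg C Y - p with hq
  have hclq : H.cl q = 0 := by rw [hq, map_sub, hclp, sub_self]
  have hqq : C.comp q q = q := by
    have h5 : ∀ P : Cor C Y, P * P = P → (1 - P) * (1 - P) = 1 - P := by
      intro P hP
      rw [mul_sub, sub_mul, sub_mul, one_mul, one_mul, mul_one, hP, sub_self, sub_zero]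
    exact h5 p hpp
  set qX := C.comp (C.comp v q) w with hqX
  have hclqX : H.cl qX = 0 := by
    rw [hqX, cl_comp, cl_comp, hclq, comp_zero, zero_comp]
  have hqXX : C.comp qX qX = qX := by
    calc C.comp qX qX = C.comp (C.comp v q) (C.comp w (C.comp (C.comp v q) w)) := by
          rw [hqX, comp_assoc]
      _ = C.comp (C.comp v q) (C.comp (C.comp w v) (C.comp q w)) := by
          rw [comp_assoc C v q w, ← comp_assoc C w v]
      _ = C.comp (C.comp v (C.comp q q)) w := by
          rw [hwv, dg_comp, ← comp_assoc, comp_assoc C v q q]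
      _ = qX := by rw [hqq]
  have h0 : qX = 0 := eq_zero_of_idem_nil (C := C) (X := X) (q := qX) hqXX
    (hnil qX hclqX)
  have hq0 : q = C.comp (C.comp w qX) v := by
    calc q = C.comp (dg C Y) (C.comp q (dg C Y)) := by rw [dg_comp, comp_dg]
      _ = C.comp (C.comp w v) (C.comp q (C.comp w v)) := by rw [hwv]
      _ = C.comp (C.comp w (C.comp (C.comp v q) w)) v := by
          simp only [comp_assoc]
  rw [h0, comp_zero, zero_comp] at hq0
  rw [hq, sub_eq_zero] at hq0
  exact hq0.symm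

omit hH in
lemma isComponent_vr (v : C.A (X.prod Y)) (r : ℤ) :
    IsComponent C v ((X.dim : ℤ) + r) (vr X Y r v) := by
  refine ⟨vr_mem r v, ?_⟩
  refine cor_ind (p := fun v => v - vr X Y r v ∈
    ⨆ j : {j : ℤ // j ≠ (X.dim : ℤ) + r}, C.gr (X.prod Y) j) ?_ ?_ v
  · intro s a ha
    by_cases h : s = r
    · subst h
      rw [vr_of_mem ha, sub_self]
      exact Submodule.zero_mem _
    · rw [vr_of_ne ha h, sub_zero]
      exact le_iSup (fun j : {j : ℤ // j ≠ (X.dim : ℤ) + r} => C.gr (X.prod Y) j)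
        ⟨(X.dim : ℤ) + s, by omega⟩ ha
  · intro a b h1 h2
    have e : a + b - vr X Y r (a + b) = (a - vr X Y r a) + (b - vr X Y r b) := by
      rw [map_add]
      abel
    rw [e]
    exact Submodule.add_mem _ h1 h2

omit hH in
lemma eq_vr_of_isComponent {v z : C.A (X.prod Y)} {r : ℤ}
    (h : IsComponent C v ((X.dim : ℤ) + r) z) : z = vr X Y r v := by
  have h1 : vr X Y r (v - z) = 0 := by
    refine Submodule.iSup_induction (fun j : {j : ℤ // j ≠ (X.dim : ℤ) + r} => C.gr (X.prod Y) j)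
      (motive := fun y => vr X Y r y = 0) h.2 ?_ ?_ ?_
    · rintro ⟨j, hj⟩ y hy
      exact cmp_of_ne _ hy hj
    · exact map_zero _
    · intro a b ha hb
      rw [map_add, ha, hb, add_zero]
  rw [map_sub, vr_of_mem h.1, sub_eq_zero] at h1
  exact h1.symm

omit hH in
lemma IsIntertwiner.comm' {LX : C.A (X.prod X)} {LY : C.A (Y.prod Y)} {v : C.A (X.prod Y)}
    {w : C.A (Y.prod X)} (h : IsIntertwiner C LX LY v w) : C.comp LY w = C.comp w LX := by
  calc C.comp LY w = C.comp (C.comp (C.comp w v) LY) w := by rw [h.right, dg_comp]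
    _ = C.comp w (C.comp (C.comp v LY) w) := by simp only [comp_assoc]
    _ = C.comp w (C.comp LX (C.comp v w)) := by rw [← h.comm]; simp only [comp_assoc]
    _ = C.comp w LX := by rw [h.left, comp_dg]

omit hH in
lemma IsIntertwiner.symm {LX : C.A (X.prod X)} {LY : C.A (Y.prod Y)} {v : C.A (X.prod Y)}
    {w : C.A (Y.prod X)} (h : IsIntertwiner C LX LY v w) : IsIntertwiner C LY LX w v :=
  ⟨h.degY, h.degX, h.comm', h.right, h.left⟩

theorem main {LX : C.A (X.prod X)} {LY : C.A (Y.prod Y)} {v : C.A (X.prod Y)}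
    {w : C.A (Y.prod X)} (hdim : X.dim = Y.dim) (hX : HardLefschetzCor H X LX)
    (hY : HardLefschetzCor H Y LY) (h : IsIntertwiner C LX LY v w) :
    (∀ i < (X.dim : ℤ), ∀ z, IsComponent C v i z → H.cl z = 0) ∧
    ∃ (Z : C.A (X.prod Y)) (Z' : C.A (Y.prod X)), IsComponent C v X.dim Z ∧
      IsComponent C w Y.dim Z' ∧ C.comp LX Z = C.comp Z LY ∧ C.comp LY Z' = C.comp Z' LX ∧
      H.cl (C.comp Z Z') = H.cl (dg C X) ∧ H.cl (C.comp Z' Z) = H.cl (dg C Y) ∧
      (IsKimuraFinite C (ratFam C) X ∨ IsKimuraFinite C (ratFam C) Y → IsChowIso C Z) := by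
  have h' := h.symm
  have hcl1 := cl_vr_zero (H := H) hdim h.degX h.degY hX hY h.comm h'.comm h.left
  have hcl2 := cl_vr_zero (H := H) hdim.symm h.degY h.degX hY hX h'.comm h.comm h.right
  have hZ := isComponent_vr (C := C) v 0
  have hZ' := isComponent_vr (C := C) w 0
  rw [add_zero] at hZ hZ'
  refine ⟨fun i hi z hz => ?_, vr X Y 0 v, vr Y X 0 w, hZ, hZ', vr_comm h.degX h.degY h.comm 0,
    vr_comm h.degY h.degX h'.comm 0, hcl1, hcl2, ?_⟩
  · have hz' : IsComponent C v ((X.dim : ℤ) + (i - X.dim)) z := by rwa [add_sub_cancel]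
    rw [eq_vr_of_isComponent hz']
    apply hom_zero_of_act H
    intro a
    have h1 := act_vr_neg (H := H) hdim h.degX h.degY hX hY h.comm (r := i - X.dim) (by omega)
    exact LinearMap.congr_fun h1 a
  · rintro (hK | hK)
    · obtain ⟨a', ha', h3, h4, h5⟩ := iso_of_nil H hZ.1 hZ'.1 h.right hcl1 hcl2
        (fun z hz => nil_of_kimura H hK hz)
      refine ⟨hZ.1, C.comp (vr Y X 0 w) a', ?_, ?_, h5⟩
      · have := comp_mem C (X := Y) (Y := X) (Z := X) (e := 0) (e' := 0)
          (by rw [add_zero]; exact hZ'.1) (by rwa [add_zero]) (Γ := vr Y X 0 w) (Δ := a')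
        rwa [add_zero, add_zero] at this
      · rw [← comp_assoc, h3]
    · obtain ⟨b', hb', h3, h4, h5⟩ := iso_of_nil H hZ'.1 hZ.1 h.left hcl2 hcl1
        (fun z hz => nil_of_kimura H hK hz)
      refine ⟨hZ.1, C.comp b' (vr Y X 0 w), ?_, ?_, ?_⟩
      · have := comp_mem C (X := Y) (Y := Y) (Z := X) (e := 0) (e' := 0)
          (by rwa [add_zero]) (by rw [add_zero]; exact hZ'.1) (Γ := b') (Δ := vr Y X 0 w)
        rwa [add_zero, add_zero] at this
      · rw [← comp_assoc, h5]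
      · rw [comp_assoc, h4]

end weil

end Pool.Agent.N174.OV
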